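import Pool.Agent.W2helper75.FD.Stm3

/-!
Piece LCB of project FD part 3 (helper75): the ultrametric norm of an ascending structure.
-/

set_option autoImplicit false

namespace Pool.Agent.W2helper49.FD

open Pool.Agent.W2helper75.FD

section core

variable {G : Type} [Group G] (B : Subgroup G) (t : G)

/-- `x ∈ t ^ n B t ^ (-n)` -/
def lev (n : ℤ) (x : G) : Prop := t ^ (-n) * x * t ^ n ∈ B

/-- `x` is in some `t ^ n B t ^ (-n)` -/
def UU (x : G) : Prop := ∃ n : ℤ, lev B t n x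

/-- the values of the norm -/
def Ns (x : G) : Set ℝ := {r | ∃ n : ℤ, lev B t n x ∧ r = (1 / 2 : ℝ) ^ n}

/-- the norm -/
noncomputable def NN (x : G) : ℝ := sInf (Ns B t x)

variable {B t}

lemma lev_step (hc : ∀ x ∈ B, t * x * t⁻¹ ∈ B) {n : ℤ} {x : G} (h : lev B t (n + 1) x) :
    lev B t n x := by
  have h1 := hc _ h
  have e : t * (t ^ (-(n + 1)) * x * t ^ (n + 1)) * t⁻¹ = t ^ (-n) * x * t ^ n := by group
  rw [e] at h1
  exact h1

lemma lev_mono (hc : ∀ x ∈ B, t * x * t⁻¹ ∈ B) {m n : ℤ} (hmn : m ≤ n) {x : G}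
    (h : lev B t n x) : lev B t m x := by
  obtain ⟨k, rfl⟩ := Int.le.dest hmn
  clear hmn
  induction k with
  | zero => simpa using h
  | succ k ih =>
    apply ih
    apply lev_step hc
    have e : m + ((k : ℕ) : ℤ) + 1 = m + ((k + 1 : ℕ) : ℤ) := by push_cast; ring
    rw [e]
    exact h

lemma lev_mul {n : ℤ} {x y : G} (hx : lev B t n x) (hy : lev B t n y) : lev B t n (x * y) := by
  have h1 := B.mul_mem hx hy
  have e : t ^ (-n) * x * t ^ n * (t ^ (-n) * y * t ^ n) = t ^ (-n) * (x * y) * t ^ n := by group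
  rw [e] at h1
  exact h1

lemma lev_inv {n : ℤ} {x : G} (hx : lev B t n x) : lev B t n x⁻¹ := by
  have h1 := B.inv_mem hx
  have e : (t ^ (-n) * x * t ^ n)⁻¹ = t ^ (-n) * x⁻¹ * t ^ n := by group
  rw [e] at h1
  exact h1

lemma lev_one (n : ℤ) : lev B t n 1 := by
  have e : t ^ (-n) * 1 * t ^ n = 1 := by group
  unfold lev
  rw [e]
  exact B.one_mem

lemma lev_conj {n : ℤ} {x : G} (k : ℤ) (hx : lev B t n x) :
    lev B t (n + k) (t ^ k * x * t ^ (-k)) := by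
  have e : t ^ (-(n + k)) * (t ^ k * x * t ^ (-k)) * t ^ (n + k) = t ^ (-n) * x * t ^ n := by group
  unfold lev
  rw [e]
  exact hx

lemma UU_mul (hc : ∀ x ∈ B, t * x * t⁻¹ ∈ B) {x y : G} (hx : UU B t x) (hy : UU B t y) :
    UU B t (x * y) := by
  obtain ⟨m, hm⟩ := hx
  obtain ⟨n, hn⟩ := hy
  exact ⟨min m n, lev_mul (lev_mono hc (min_le_left _ _) hm) (lev_mono hc (min_le_right _ _) hn)⟩

lemma UU_inv {x : G} (hx : UU B t x) : UU B t x⁻¹ := by
  obtain ⟨m, hm⟩ := hx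
  exact ⟨m, lev_inv hm⟩

lemma UU_conj {x : G} (k : ℤ) (hx : UU B t x) : UU B t (t ^ k * x * t ^ (-k)) := by
  obtain ⟨m, hm⟩ := hx
  exact ⟨m + k, lev_conj k hm⟩

lemma Ns_bdd (x : G) : BddBelow (Ns B t x) :=
  ⟨0, by rintro _ ⟨n, -, rfl⟩; positivity⟩

lemma NN_nonneg (x : G) : 0 ≤ NN B t x :=
  Real.sInf_nonneg (by rintro _ ⟨n, -, rfl⟩; positivity)

lemma NN_le {n : ℤ} {x : G} (h : lev B t n x) : NN B t x ≤ (1 / 2 : ℝ) ^ n :=
  csInf_le (Ns_bdd x) ⟨n, h, rfl⟩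

lemma Ns_ne {x : G} (h : UU B t x) : (Ns B t x).Nonempty := by
  obtain ⟨n, hn⟩ := h
  exact ⟨_, n, hn, rfl⟩

lemma NN_lt {x : G} (h : UU B t x) {r : ℝ} (hr : NN B t x < r) :
    ∃ n : ℤ, lev B t n x ∧ (1 / 2 : ℝ) ^ n < r := by
  obtain ⟨_, ⟨n, hn, rfl⟩, h2⟩ := exists_lt_of_csInf_lt (Ns_ne h) hr
  exact ⟨n, hn, h2⟩

lemma NN_mul (hc : ∀ x ∈ B, t * x * t⁻¹ ∈ B) {x y : G} (hx : UU B t x) (hy : UU B t y) :
    NN B t (x * y) ≤ max (NN B t x) (NN B t y) := by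
  by_contra hlt
  rw [not_le] at hlt
  obtain ⟨m, hm, hm2⟩ := NN_lt hx (lt_of_le_of_lt (le_max_left _ _) hlt)
  obtain ⟨n, hn, hn2⟩ := NN_lt hy (lt_of_le_of_lt (le_max_right _ _) hlt)
  have h1 := NN_le
    (lev_mul (lev_mono hc (min_le_left m n) hm) (lev_mono hc (min_le_right m n) hn))
  rcases min_choice m n with h | h
  · rw [h] at h1
    exact absurd h1 (not_le.2 hm2)
  · rw [h] at h1
    exact absurd h1 (not_le.2 hn2)

lemma NN_inv (x : G) : NN B t x⁻¹ = NN B t x := by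
  have h : Ns B t x⁻¹ = Ns B t x := by
    ext r
    constructor
    · rintro ⟨n, hn, rfl⟩
      refine ⟨n, ?_, rfl⟩
      have := lev_inv hn
      rwa [inv_inv] at this
    · rintro ⟨n, hn, rfl⟩
      exact ⟨n, lev_inv hn, rfl⟩
  unfold NN
  rw [h]

lemma NN_conj {x : G} (hx : UU B t x) (k : ℤ) :
    NN B t (t ^ k * x * t ^ (-k)) ≤ (1 / 2 : ℝ) ^ k * NN B t x := by
  have hp : (0 : ℝ) < (1 / 2 : ℝ) ^ k := by positivity
  have h1 : NN B t (t ^ k * x * t ^ (-k)) / (1 / 2 : ℝ) ^ k ≤ NN B t x := by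
    refine le_csInf (Ns_ne hx) ?_
    rintro _ ⟨n, hn, rfl⟩
    rw [div_le_iff₀ hp, ← zpow_add₀ (by norm_num)]
    exact NN_le (lev_conj k hn)
  rw [div_le_iff₀ hp] at h1
  linarith [mul_comm (NN B t x) ((1 / 2 : ℝ) ^ k)]

lemma NN_one : NN B t 1 = 0 := by
  refine le_antisymm ?_ (NN_nonneg 1)
  refine le_of_forall_pos_le_add fun ε hε => ?_
  obtain ⟨n, hn⟩ := exists_pow_lt_of_lt_one hε (by norm_num : (1 / 2 : ℝ) < 1)
  have h1 := NN_le (lev_one (B := B) (t := t) (n : ℤ))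
  rw [zpow_natCast] at h1
  linarith

end core

theorem lcb (hK : P_KER) : P_LCB := by
  classical
  intro Γ _ H f hfg hf hker
  obtain ⟨S0, hS0⟩ := hfg.out
  set S : Finset H := S0 ∪ S0.image (fun x => x⁻¹) with hS
  have hsym : ∀ s ∈ S, s⁻¹ ∈ S := by
    intro s hs
    rw [hS, Finset.mem_union, Finset.mem_image] at hs ⊢
    rcases hs with hs | ⟨y, hy, rfl⟩
    · exact Or.inr ⟨s, hs, rfl⟩
    · left
      rwa [inv_inv]
  have hgen : Subgroup.closure (S : Set H) = ⊤ := by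
    rw [eq_top_iff, ← hS0]
    refine Subgroup.closure_mono ?_
    intro x hx
    rw [hS]
    exact Finset.mem_coe.2 (Finset.mem_union_left _ (Finset.mem_coe.1 hx))
  obtain ⟨h0, B, t, b, A⟩ := hK H S hsym hgen f hf hker
  have hc := A.conj
  have h01 : h0 1 = 0 := by
    have := A.hom 1 1
    rw [mul_one] at this
    omega
  have h0inv : ∀ x, h0 x⁻¹ = - h0 x := by
    intro x
    have := A.hom x x⁻¹
    rw [mul_inv_cancel, h01] at this
    omega
  -- products and inverses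
  have emul : ∀ x y : H, x * y * t ^ (-h0 (x * y)) =
      (x * t ^ (-h0 x)) * (t ^ h0 x * (y * t ^ (-h0 y)) * t ^ (-h0 x)) := by
    intro x y
    rw [A.hom]
    group
  have einv : ∀ x : H, x⁻¹ * t ^ (-h0 x⁻¹) =
      t ^ (-h0 x) * (x * t ^ (-h0 x))⁻¹ * t ^ (-(-h0 x)) := by
    intro x
    rw [h0inv]
    group
  have hU : ∀ x : H, UU B t (x * t ^ (-h0 x)) := by
    intro x
    have hx : x ∈ Subgroup.closure (S : Set H) := by rw [hgen]; exact Subgroup.mem_top x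
    induction hx using Subgroup.closure_induction with
    | mem s hs =>
      refine ⟨0, ?_⟩
      have h1 := A.gens s (Finset.mem_coe.1 hs) 0
      rw [pow_zero, one_mul, inv_one, mul_one] at h1
      unfold lev
      rw [neg_zero, zpow_zero, one_mul, mul_one]
      exact h1
    | one =>
      refine ⟨0, ?_⟩
      unfold lev
      rw [h01, neg_zero, zpow_zero, mul_one, mul_one, mul_one]
      exact B.one_mem
    | mul x y _ _ hx hy =>
      rw [emul]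
      exact UU_mul hc hx (UU_conj _ hy)
    | inv x _ hx =>
      rw [einv]
      exact UU_conj _ (UU_inv hx)
  -- the functions
  obtain ⟨b0, hb0⟩ : ∃ b0 : H → ℝ, ∀ x, b0 x = NN B t (x * t ^ (-h0 x)) := ⟨_, fun _ => rfl⟩
  have b_mul : ∀ x y, b0 (x * y) ≤ b0 x + (1 / 2 : ℝ) ^ h0 x * b0 y := by
    intro x y
    rw [hb0, hb0, hb0, emul]
    have h1 := NN_mul hc (hU x) (UU_conj (h0 x) (hU y))
    have h2 := NN_conj (hU y) (h0 x)
    have h3 := NN_nonneg (B := B) (t := t) (x * t ^ (-h0 x))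
    have h4 := NN_nonneg (B := B) (t := t) (t ^ h0 x * (y * t ^ (-h0 y)) * t ^ (-h0 x))
    have h5 : max (NN B t (x * t ^ (-h0 x)))
        (NN B t (t ^ h0 x * (y * t ^ (-h0 y)) * t ^ (-h0 x))) ≤
        NN B t (x * t ^ (-h0 x)) + NN B t (t ^ h0 x * (y * t ^ (-h0 y)) * t ^ (-h0 x)) :=
      max_le (by linarith) (by linarith)
    linarith
  have b_inv : ∀ x, b0 x⁻¹ ≤ (1 / 2 : ℝ) ^ (-h0 x) * b0 x := by
    intro x
    rw [hb0, hb0, einv]
    have h2 := NN_conj (UU_inv (hU x)) (-h0 x)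
    rw [NN_inv] at h2
    exact h2
  have b_one : b0 1 = 0 := by
    rw [hb0, h01, neg_zero, zpow_zero, mul_one]
    exact NN_one
  have b_t : b0 t = 0 := by
    rw [hb0, A.ht, zpow_neg_one, mul_inv_cancel]
    exact NN_one
  -- extension by zero
  obtain ⟨h, hh⟩ : ∃ h : Γ → ℤ, ∀ x (hx : x ∈ H), h x = h0 ⟨x, hx⟩ :=
    ⟨fun x => if hx : x ∈ H then h0 ⟨x, hx⟩ else 0, fun x hx => dif_pos hx⟩
  obtain ⟨b1, hb1⟩ : ∃ b1 : Γ → ℝ, ∀ x (hx : x ∈ H), b1 x = b0 ⟨x, hx⟩ :=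
    ⟨fun x => if hx : x ∈ H then b0 ⟨x, hx⟩ else 0, fun x hx => dif_pos hx⟩
  refine ⟨h, b1, 1 / 2, (t : Γ), ⟨by norm_num, by norm_num, ?_, ?_, ?_, ?_, ?_, t.2, ?_, ?_⟩, ?_⟩
  · intro x hx y hy
    rw [hh x hx, hh y hy, hh _ (H.mul_mem hx hy)]
    exact A.hom ⟨x, hx⟩ ⟨y, hy⟩
  · intro x hx y hy
    rw [hh x hx, hb1 x hx, hb1 y hy, hb1 _ (H.mul_mem hx hy)]
    exact b_mul ⟨x, hx⟩ ⟨y, hy⟩
  · intro x hx
    rw [hb1 x hx, hb0]
    exact NN_nonneg _
  · rw [hb1 1 H.one_mem]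
    exact b_one
  · intro x hx
    rw [hh x hx, hb1 x hx, hb1 _ (H.inv_mem hx)]
    exact b_inv ⟨x, hx⟩
  · rw [hh _ t.2]
    exact A.ht
  · rw [hb1 _ t.2]
    exact b_t
  · intro R
    obtain ⟨j, hj⟩ := pow_unbounded_of_one_lt R (by norm_num : (1 : ℝ) < 2)
    -- `t ^ (-j) B t ^ j`
    have hstep : ∀ x : H, lev B t (-(j : ℤ)) x → lev B t (-(j : ℤ)) (t * x * t⁻¹) := by
      intro x hx
      have h1 := lev_conj 1 hx
      have h2 := lev_mono hc (by omega : (-(j : ℤ)) ≤ -(j : ℤ) + 1) h1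
      rw [zpow_one, zpow_neg_one] at h2
      exact h2
    obtain ⟨Bj, hBj⟩ : ∃ Bj : Subgroup H, ∀ x, x ∈ Bj ↔ lev B t (-(j : ℤ)) x :=
      ⟨{ carrier := {x | lev B t (-(j : ℤ)) x}
         mul_mem' := fun hx hy => lev_mul hx hy
         one_mem' := lev_one _
         inv_mem' := fun hx => lev_inv hx }, fun x => Iff.rfl⟩
    refine ⟨Bj.map H.subtype, (t : Γ), ((t ^ (-(j : ℤ)) * b * t ^ (j : ℤ) : H) : Γ),
      ?_, ?_, ?_, ?_⟩
    · rintro _ ⟨y, hy, rfl⟩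
      refine ⟨t * y * t⁻¹, (hBj _).2 (hstep y ((hBj y).1 hy)), ?_⟩
      simp
    · refine ⟨t ^ (-(j : ℤ)) * b * t ^ (j : ℤ), (hBj _).2 ?_, rfl⟩
      have e : t ^ (-(-(j : ℤ))) * (t ^ (-(j : ℤ)) * b * t ^ (j : ℤ)) * t ^ (-(j : ℤ)) = b := by
        group
      unfold lev
      rw [e]
      exact A.hb
    · rintro ⟨y, hy, hye⟩
      have hy2 : y = t⁻¹ * (t ^ (-(j : ℤ)) * b * t ^ (j : ℤ)) * t := by
        apply Subtype.ext
        rw [Subgroup.coe_subtype] at hye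
        rw [hye]
        simp
      have h1 := (hBj y).1 hy
      unfold lev at h1
      rw [hy2] at h1
      have e : t ^ (-(-(j : ℤ))) * (t⁻¹ * (t ^ (-(j : ℤ)) * b * t ^ (j : ℤ)) * t) *
          t ^ (-(j : ℤ)) = t⁻¹ * b * t := by group
      rw [e] at h1
      exact A.strict h1
    · intro x hx hx0 hxb
      rw [hh x hx] at hx0
      rw [hb1 x hx, hb0] at hxb
      have h2 := hU ⟨x, hx⟩
      rw [hx0, neg_zero, zpow_zero, mul_one] at hxb h2
      obtain ⟨n, hn, hn2⟩ := NN_lt h2 (lt_of_le_of_lt hxb hj)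
      refine ⟨⟨x, hx⟩, (hBj _).2 (lev_mono hc ?_ hn), rfl⟩
      by_contra hlt
      rw [not_le] at hlt
      have h3 : (2 : ℝ) ^ j ≤ (1 / 2 : ℝ) ^ n := by
        have e : (1 / 2 : ℝ) ^ n = (2 : ℝ) ^ (-n) := by
          rw [one_div, inv_zpow, zpow_neg]
        rw [e, ← zpow_natCast]
        exact zpow_le_zpow_right₀ (by norm_num) (by omega)
      linarith

end Pool.Agent.W2helper49.FD
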